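import Mathlib

set_option autoImplicit false

open MeasureTheory Metric Set
open scoped RealInnerProductSpace

namespace Pool.Agent.Helper82.Proj1

/-- The support function `h_K(u) = sup { <x,u> : x in K }`. -/
noncomputable def supp {F : Type*} [NormedAddCommGroup F] [InnerProductSpace ℝ F]
    (K : Set F) (u : F) : ℝ := sSup ((fun x : F => ⟪x, u⟫) '' K)

/-- The volume `κ_n` of the unit ball of `ℝ^n`. -/
noncomputable def kappa (n : ℕ) : ℝ := (volume (ball (0 : EuclideanSpace ℝ (Fin n)) 1)).toReal

/-- The first intrinsic volume of a compact convex subset `L` of an `n`-dimensional Euclidean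
space `F`: `V_1(L) = κ_{n-1}^{-1} ∫_{S(F)} h_L dσ`, with `σ` the surface area measure of the unit
sphere of `F` (total mass `n κ_n`). -/
noncomputable def V1 {F : Type*} [NormedAddCommGroup F] [InnerProductSpace ℝ F]
    [FiniteDimensional ℝ F] [MeasurableSpace F] [BorelSpace F] (L : Set F) : ℝ :=
  (∫ w : sphere (0 : F) 1, supp L (w : F) ∂((volume : Measure F).toSphere)) /
    kappa (Module.finrank ℝ F - 1)

/-- The orthogonal projection of `K` onto the subspace `S`, as a subset of `S`. -/
noncomputable def shadow {E : Type*} [NormedAddCommGroup E] [InnerProductSpace ℝ E]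
    [FiniteDimensional ℝ E] (K : Set E) (S : Submodule ℝ E) : Set S :=
  (fun x : E => S.orthogonalProjectionOnto x) '' K

/-- `P` is the first projection body `Π_1 K` of `K`: for every unit vector `u`,
`h_P(u)` is the first intrinsic volume of the orthogonal projection of `K` onto `u^⊥`. -/
def IsFirstProjectionBody {d : ℕ} (K P : ConvexBody (EuclideanSpace ℝ (Fin d))) : Prop :=
  ∀ u : EuclideanSpace ℝ (Fin d), ‖u‖ = 1 →
    supp (P : Set (EuclideanSpace ℝ (Fin d))) u =
      V1 (shadow (K : Set (EuclideanSpace ℝ (Fin d))) (Submodule.span ℝ {u})ᗮ)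

/-- `L` and `K` are homothetic: `L = c K + x` with `c > 0`. -/
def Homothetic {d : ℕ} (L K : ConvexBody (EuclideanSpace ℝ (Fin d))) : Prop :=
  ∃ c : ℝ, 0 < c ∧ ∃ x : EuclideanSpace ℝ (Fin d),
    (L : Set (EuclideanSpace ℝ (Fin d))) = (fun y => c • y + x) '' (K : Set _)

end Pool.Agent.Helper82.Proj1
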