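import Mathlib
import Pool.Agent.Helper82.Proj1.Defs

set_option autoImplicit false

open MeasureTheory Metric Set
open scoped RealInnerProductSpace Pointwise

namespace Pool.Agent.Helper82.Proj1

section general
variable {F : Type*} [NormedAddCommGroup F] [InnerProductSpace ℝ F]

lemma bdd_image {K : Set F} (hK : IsCompact K) (u : F) :
    BddAbove ((fun x : F => ⟪x, u⟫) '' K) := by
  apply (hK.image ?_).bddAbove
  fun_prop

lemma le_supp {K : Set F} (hK : IsCompact K) {x : F} (hx : x ∈ K) (u : F) : ⟪x, u⟫ ≤ supp K u :=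
  le_csSup (bdd_image hK u) ⟨x, hx, rfl⟩

lemma supp_le {K : Set F} (hne : K.Nonempty) {u : F} {B : ℝ} (h : ∀ x ∈ K, ⟪x, u⟫ ≤ B) :
    supp K u ≤ B := by
  apply csSup_le (hne.image _)
  rintro _ ⟨x, hx, rfl⟩
  exact h x hx

lemma supp_sub_le {K : Set F} (hK : IsCompact K) (hne : K.Nonempty) {R : ℝ}
    (hR : ∀ x ∈ K, ‖x‖ ≤ R) (u v : F) : supp K u - supp K v ≤ R * ‖u - v‖ := by
  have : supp K u ≤ supp K v + R * ‖u - v‖ := by
    apply supp_le hne
    intro x hx
    have h1 := le_supp hK hx v
    have h2 : ⟪x, u - v⟫ ≤ R * ‖u - v‖ := by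
      calc ⟪x, u - v⟫ ≤ ‖x‖ * ‖u - v‖ := real_inner_le_norm _ _
        _ ≤ R * ‖u - v‖ := by gcongr; exact hR x hx
    rw [inner_sub_right] at h2
    linarith
  linarith

lemma supp_continuous {K : Set F} (hK : IsCompact K) (hne : K.Nonempty) :
    Continuous (supp K) := by
  obtain ⟨R, hR⟩ := hK.isBounded.exists_norm_le
  have hR0 : 0 ≤ R := by
    obtain ⟨x, hx⟩ := hne
    exact (norm_nonneg x).trans (hR x hx)
  have : LipschitzWith (Real.toNNReal R) (supp K) := by
    apply LipschitzWith.of_dist_le_mul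
    intro u v
    rw [Real.dist_eq, dist_eq_norm, Real.coe_toNNReal _ hR0, abs_le]
    constructor
    · have := supp_sub_le hK hne hR v u
      rw [norm_sub_rev] at this
      linarith
    · exact supp_sub_le hK hne hR u v
  exact this.continuous

lemma supp_homothety {K : Set F} (hK : IsCompact K) (hne : K.Nonempty) {c : ℝ} (hc : 0 < c)
    (x u : F) : supp ((fun y => c • y + x) '' K) u = c * supp K u + ⟪x, u⟫ := by
  apply le_antisymm
  · apply supp_le (hne.image _)
    rintro _ ⟨y, hy, rfl⟩
    simp only [inner_add_left, real_inner_smul_left]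
    have := le_supp hK hy u
    nlinarith
  · have hK' : IsCompact ((fun y => c • y + x) '' K) := hK.image (by fun_prop)
    have : supp K u ≤ (supp ((fun y => c • y + x) '' K) u - ⟪x, u⟫) / c := by
      apply supp_le hne
      intro y hy
      rw [le_div_iff₀ hc]
      have := le_supp hK' (Set.mem_image_of_mem (fun y => c • y + x) hy) u
      simp only [inner_add_left, real_inner_smul_left] at this
      linarith
    rw [le_div_iff₀ hc] at this
    linarith

lemma supp_closedBall (y : F) {r : ℝ} (hr : 0 ≤ r) {u : F} (hu : ‖u‖ = 1) :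
    supp (closedBall y r) u = ⟪y, u⟫ + r := by
  apply le_antisymm
  · apply supp_le ⟨y, mem_closedBall_self hr⟩
    intro x hx
    have h1 : ⟪x - y, u⟫ ≤ ‖x - y‖ * ‖u‖ := real_inner_le_norm _ _
    rw [mem_closedBall, dist_eq_norm] at hx
    rw [inner_sub_left, hu] at h1
    linarith
  · have hbdd : BddAbove ((fun x : F => ⟪x, u⟫) '' closedBall y r) := by
      refine ⟨⟪y, u⟫ + r, ?_⟩
      rintro _ ⟨x, hx, rfl⟩
      have h1 : ⟪x - y, u⟫ ≤ ‖x - y‖ * ‖u‖ := real_inner_le_norm _ _
      rw [mem_closedBall, dist_eq_norm] at hx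
      rw [inner_sub_left, hu] at h1
      simp only
      linarith
    have hmem : y + r • u ∈ closedBall y r := by
      rw [mem_closedBall, dist_eq_norm]
      simp [norm_smul, hu, abs_of_nonneg hr]
    have := le_csSup hbdd ⟨y + r • u, hmem, rfl⟩
    simp only [inner_add_left, real_inner_smul_left, real_inner_self_eq_norm_sq, hu] at this
    unfold supp
    linarith

/-- A compact convex set whose support function is that of a ball is that ball. -/
lemma eq_closedBall [CompleteSpace F] {K : Set F} (hK : IsCompact K) (hc : Convex ℝ K)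
    (hne : K.Nonempty) (y : F) (r : ℝ) (hr : 0 ≤ r)
    (h : ∀ u : F, ‖u‖ = 1 → supp K u = ⟪y, u⟫ + r) : K = closedBall y r := by
  apply Set.Subset.antisymm
  · intro x hx
    rw [mem_closedBall, dist_eq_norm]
    by_cases hxy : x - y = 0
    · rw [hxy, norm_zero]; exact hr
    · have hn : ‖x - y‖ ≠ 0 := norm_ne_zero_iff.2 hxy
      have hu : ‖(‖x - y‖⁻¹ • (x - y))‖ = 1 := by
        rw [norm_smul, norm_inv, norm_norm, inv_mul_cancel₀ hn]
      have h1 := le_supp hK hx (‖x - y‖⁻¹ • (x - y))
      rw [h _ hu] at h1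
      have h2 : ⟪x - y, ‖x - y‖⁻¹ • (x - y)⟫ ≤ r := by
        rw [inner_sub_left]; linarith
      rw [real_inner_smul_right, real_inner_self_eq_norm_sq] at h2
      have h3 : ‖x - y‖⁻¹ * ‖x - y‖ ^ 2 = ‖x - y‖ := by
        field_simp
      linarith
  · intro x hx
    by_contra hxK
    obtain ⟨f, a, hfa, hfx⟩ := geometric_hahn_banach_closed_point hc hK.isClosed hxK
    set v : F := (InnerProductSpace.toDual ℝ F).symm f with hv
    have hfv : ∀ z, f z = ⟪z, v⟫ := by
      intro z
      rw [hv, real_inner_comm, InnerProductSpace.toDual_symm_apply]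
    have hv0 : v ≠ 0 := by
      intro h0
      obtain ⟨z, hz⟩ := hne
      have h1 := hfa z hz
      rw [hfv, h0, inner_zero_right] at h1 hfx
      linarith
    have hn : ‖v‖ ≠ 0 := norm_ne_zero_iff.2 hv0
    have hnpos : 0 < ‖v‖ := norm_pos_iff.2 hv0
    have hu : ‖(‖v‖⁻¹ • v)‖ = 1 := by
      rw [norm_smul, norm_inv, norm_norm, inv_mul_cancel₀ hn]
    have h1 : supp K (‖v‖⁻¹ • v) ≤ ‖v‖⁻¹ * a := by
      apply supp_le hne
      intro z hz
      rw [real_inner_smul_right]
      have := hfa z hz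
      rw [hfv] at this
      exact mul_le_mul_of_nonneg_left this.le (by positivity)
    rw [h _ hu] at h1
    have h2 : ‖v‖⁻¹ * a < ‖v‖⁻¹ * ⟪x, v⟫ := by
      rw [hfv] at hfx
      exact mul_lt_mul_of_pos_left hfx (by positivity)
    have h3 : ⟪x - y, ‖v‖⁻¹ • v⟫ ≤ ‖x - y‖ * ‖(‖v‖⁻¹ • v)‖ := real_inner_le_norm _ _
    rw [mem_closedBall, dist_eq_norm] at hx
    rw [hu, inner_sub_left, real_inner_smul_right x] at h3
    linarith

end general

section sphere
variable {F : Type*} [NormedAddCommGroup F] [InnerProductSpace ℝ F]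
    [FiniteDimensional ℝ F] [MeasurableSpace F] [BorelSpace F]

lemma measurePreserving_neg :
    MeasurePreserving (fun w : sphere (0 : F) 1 => -w) ((volume : Measure F).toSphere)
      ((volume : Measure F).toSphere) := by
  refine ⟨by fun_prop, ?_⟩
  ext s hs
  rw [Measure.map_apply (by fun_prop) hs]
  rw [Measure.toSphere_apply' _ hs, Measure.toSphere_apply' _ (by
    exact (by fun_prop : Measurable (fun w : sphere (0 : F) 1 => -w)) hs)]
  congr 1
  have : Ioo (0 : ℝ) 1 • ((fun a : sphere (0 : F) 1 => (a : F)) '' ((fun w : sphere (0 : F) 1 => -w) ⁻¹' s)) =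
      - (Ioo (0 : ℝ) 1 • ((fun a : sphere (0 : F) 1 => (a : F)) '' s)) := by
    ext z
    simp only [Set.mem_smul, Set.mem_neg, Set.mem_image, Set.mem_preimage]
    constructor
    · rintro ⟨t, ht, _, ⟨w, hw, rfl⟩, rfl⟩
      exact ⟨t, ht, _, ⟨-w, hw, rfl⟩, by simp⟩
    · rintro ⟨t, ht, _, ⟨w, hw, rfl⟩, h⟩
      refine ⟨t, ht, _, ⟨-w, by simpa using hw, rfl⟩, ?_⟩
      rw [coe_neg_sphere]
      rw [smul_neg, h, neg_neg]
  rw [this]
  exact Measure.measure_neg _ _

lemma integral_neg_comp (φ : F → ℝ) :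
    ∫ w : sphere (0 : F) 1, φ (-(w : F)) ∂((volume : Measure F).toSphere) =
    ∫ w : sphere (0 : F) 1, φ (w : F) ∂((volume : Measure F).toSphere) := by
  have := (measurePreserving_neg (F := F)).integral_comp
    (Homeomorph.neg (sphere (0 : F) 1)).measurableEmbedding (fun w : sphere (0 : F) 1 => φ (w : F))
  simpa using this

lemma integral_inner (x : F) :
    ∫ w : sphere (0 : F) 1, ⟪x, (w : F)⟫ ∂((volume : Measure F).toSphere) = 0 := by
  have h := integral_neg_comp (F := F) (fun w => ⟪x, w⟫)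
  simp only [inner_neg_right, integral_neg] at h
  linarith

lemma integrable_cont {φ : F → ℝ} (hφ : Continuous φ) :
    Integrable (fun w : sphere (0 : F) 1 => φ (w : F)) ((volume : Measure F).toSphere) := by
  have hc : Continuous (fun w : sphere (0 : F) 1 => φ (w : F)) := by fun_prop
  have : CompactSpace (sphere (0 : F) 1) := isCompact_iff_compactSpace.1 (isCompact_sphere 0 1)
  exact hc.integrable_of_hasCompactSupport (HasCompactSupport.of_compactSpace _)

end sphere

end Pool.Agent.Helper82.Proj1
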