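import Mathlib
import Pool.Agent.Helper82.Proj1.Basic

set_option autoImplicit false

open MeasureTheory Metric Set
open scoped RealInnerProductSpace Pointwise

namespace Pool.Agent.Helper82.Proj1

/-- total mass of the surface measure on the unit sphere of an `n`-dimensional space -/
noncomputable def mass (n : ℕ) : ℝ := n * ((Real.sqrt Real.pi) ^ n / Real.Gamma (n / 2 + 1))

lemma mass_pos {n : ℕ} (hn : 1 ≤ n) : 0 < mass n := by
  unfold mass
  have h1 : (0 : ℝ) < n := by exact_mod_cast hn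
  have h2 : 0 < Real.Gamma ((n : ℝ) / 2 + 1) := Real.Gamma_pos_of_pos (by positivity)
  have h3 : 0 < Real.sqrt Real.pi := Real.sqrt_pos.2 Real.pi_pos
  positivity

lemma mass_eq {F : Type*} [NormedAddCommGroup F] [InnerProductSpace ℝ F]
    [FiniteDimensional ℝ F] [MeasurableSpace F] [BorelSpace F] {n : ℕ}
    (hn : Module.finrank ℝ F = n) (h1 : 1 ≤ n) :
    ((volume : Measure F).toSphere).real univ = mass n := by
  have : Nontrivial F := Module.nontrivial_of_finrank_pos (R := ℝ) (by omega)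
  rw [Measure.toSphere_real_apply_univ]
  unfold mass Measure.real
  rw [InnerProductSpace.volume_ball, hn]
  have h2 : 0 < Real.Gamma ((n : ℝ) / 2 + 1) := Real.Gamma_pos_of_pos (by positivity)
  simp only [ENNReal.ofReal_one, one_pow, one_mul]
  rw [ENNReal.toReal_ofReal]
  have h3 : 0 < Real.sqrt Real.pi := Real.sqrt_pos.2 Real.pi_pos
  positivity

lemma kappa_pos (n : ℕ) : 0 < kappa n := by
  unfold kappa
  apply ENNReal.toReal_pos
  · exact (measure_ball_pos _ _ one_pos).ne'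
  · exact measure_ball_lt_top.ne

/-- integral over the unit sphere of a Euclidean space -/
noncomputable def sphInt {F : Type*} [NormedAddCommGroup F] [InnerProductSpace ℝ F]
    [FiniteDimensional ℝ F] [MeasurableSpace F] [BorelSpace F] (φ : F → ℝ) : ℝ :=
  ∫ w : sphere (0 : F) 1, φ (w : F) ∂((volume : Measure F).toSphere)

section sphInt
variable {F : Type*} [NormedAddCommGroup F] [InnerProductSpace ℝ F]
    [FiniteDimensional ℝ F] [MeasurableSpace F] [BorelSpace F]

lemma sphInt_add {φ ψ : F → ℝ} (hφ : Continuous φ) (hψ : Continuous ψ) :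
    sphInt (fun w => φ w + ψ w) = sphInt φ + sphInt ψ :=
  integral_add (integrable_cont hφ) (integrable_cont hψ)

lemma sphInt_const_mul (a : ℝ) (φ : F → ℝ) : sphInt (fun w => a * φ w) = a * sphInt φ :=
  integral_const_mul _ _

lemma sphInt_const {n : ℕ} (hn : Module.finrank ℝ F = n) (h1 : 1 ≤ n) (a : ℝ) :
    sphInt (fun _ : F => a) = mass n * a := by
  unfold sphInt
  rw [integral_const, mass_eq hn h1, smul_eq_mul]

lemma sphInt_congr {φ ψ : F → ℝ} (h : ∀ w : F, ‖w‖ = 1 → φ w = ψ w) :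
    sphInt φ = sphInt ψ := by
  unfold sphInt
  congr 1
  ext w
  exact h _ (by simp)

lemma sphInt_mono {φ ψ : F → ℝ} (hφ : Continuous φ) (hψ : Continuous ψ)
    (h : ∀ w : F, ‖w‖ = 1 → φ w ≤ ψ w) : sphInt φ ≤ sphInt ψ := by
  apply integral_mono (integrable_cont hφ) (integrable_cont hψ)
  intro w
  exact h _ (by simp)

lemma sphInt_eq_imp {φ ψ : F → ℝ} (hφ : Continuous φ) (hψ : Continuous ψ)
    (h : ∀ w : F, ‖w‖ = 1 → φ w ≤ ψ w) (he : sphInt φ = sphInt ψ) (w : F) (hw : ‖w‖ = 1) :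
    φ w = ψ w := by
  have h1 : ∫ w : sphere (0 : F) 1, (ψ (w : F) - φ (w : F)) ∂((volume : Measure F).toSphere) = 0 := by
    rw [integral_sub (integrable_cont hψ) (integrable_cont hφ)]
    unfold sphInt at he
    linarith
  have h2 : (0 : sphere (0 : F) 1 → ℝ) ≤ (fun w : sphere (0 : F) 1 => ψ (w : F) - φ (w : F)) := by
    intro w
    have := h (w : F) (by simp)
    simp only [Pi.zero_apply]
    linarith
  have h3 := (integral_eq_zero_iff_of_nonneg h2
    ((integrable_cont hψ).sub (integrable_cont hφ))).1 h1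
  have h4 : (fun w : sphere (0 : F) 1 => ψ (w : F) - φ (w : F)) = 0 := by
    apply (Continuous.ae_eq_iff_eq _ (by fun_prop) (by fun_prop)).1 h3
  have := congrFun h4 ⟨w, by simpa using hw⟩
  simp only [Pi.zero_apply] at this
  linarith

end sphInt

/-- The (unnormalised) Funk transform. -/
noncomputable def T {d : ℕ} (φ : EuclideanSpace ℝ (Fin d) → ℝ) (u : EuclideanSpace ℝ (Fin d)) : ℝ :=
  sphInt (F := ((Submodule.span ℝ {u})ᗮ : Submodule ℝ (EuclideanSpace ℝ (Fin d))))
    (fun w => φ (w : EuclideanSpace ℝ (Fin d)))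

section T
variable {d : ℕ}

lemma finrank_perp (hd : 3 ≤ d) {u : EuclideanSpace ℝ (Fin d)} (hu : ‖u‖ = 1) :
    Module.finrank ℝ ((Submodule.span ℝ {u})ᗮ : Submodule ℝ (EuclideanSpace ℝ (Fin d))) = d - 1 := by
  have hu0 : u ≠ 0 := by
    intro h; rw [h, norm_zero] at hu; exact zero_ne_one hu
  have h1 := Submodule.finrank_add_finrank_orthogonal (𝕜 := ℝ) (Submodule.span ℝ {u})
  rw [finrank_span_singleton hu0] at h1
  simp only [finrank_euclideanSpace, Fintype.card_fin] at h1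
  omega

lemma T_const_mul (a : ℝ) (φ : EuclideanSpace ℝ (Fin d) → ℝ) (u : EuclideanSpace ℝ (Fin d)) :
    T (fun w => a * φ w) u = a * T φ u := sphInt_const_mul _ _

lemma T_congr {φ ψ : EuclideanSpace ℝ (Fin d) → ℝ} (h : ∀ w, ‖w‖ = 1 → φ w = ψ w)
    (u : EuclideanSpace ℝ (Fin d)) : T φ u = T ψ u :=
  sphInt_congr (fun w hw => h _ (by simpa using hw))

lemma T_le (hd : 3 ≤ d) {φ : EuclideanSpace ℝ (Fin d) → ℝ} (hφ : Continuous φ) {B : ℝ}
    (h : ∀ w, ‖w‖ = 1 → φ w ≤ B) {u : EuclideanSpace ℝ (Fin d)} (hu : ‖u‖ = 1) :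
    T φ u ≤ mass (d - 1) * B := by
  rw [← sphInt_const (finrank_perp hd hu) (by omega) B]
  exact sphInt_mono (by fun_prop) (by fun_prop) (fun w hw => h _ (by simpa using hw))

lemma le_T (hd : 3 ≤ d) {φ : EuclideanSpace ℝ (Fin d) → ℝ} (hφ : Continuous φ) {B : ℝ}
    (h : ∀ w, ‖w‖ = 1 → B ≤ φ w) {u : EuclideanSpace ℝ (Fin d)} (hu : ‖u‖ = 1) :
    mass (d - 1) * B ≤ T φ u := by
  rw [← sphInt_const (finrank_perp hd hu) (by omega) B]
  exact sphInt_mono (by fun_prop) (by fun_prop) (fun w hw => h _ (by simpa using hw))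

lemma T_const (hd : 3 ≤ d) {φ : EuclideanSpace ℝ (Fin d) → ℝ} {B : ℝ}
    (h : ∀ w, ‖w‖ = 1 → φ w = B) {u : EuclideanSpace ℝ (Fin d)} (hu : ‖u‖ = 1) :
    T φ u = mass (d - 1) * B := by
  rw [← sphInt_const (finrank_perp hd hu) (by omega) B]
  exact sphInt_congr (fun w hw => h _ (by simpa using hw))

lemma T_max (hd : 3 ≤ d) {φ : EuclideanSpace ℝ (Fin d) → ℝ} (hφ : Continuous φ) {B : ℝ}
    (h : ∀ w, ‖w‖ = 1 → φ w ≤ B) {u : EuclideanSpace ℝ (Fin d)} (hu : ‖u‖ = 1)
    (he : T φ u = mass (d - 1) * B) (v : EuclideanSpace ℝ (Fin d)) (hv : ‖v‖ = 1)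
    (huv : ⟪u, v⟫ = 0) : φ v = B := by
  have hmem : v ∈ ((Submodule.span ℝ {u})ᗮ : Submodule ℝ (EuclideanSpace ℝ (Fin d))) :=
    Submodule.mem_orthogonal_singleton_iff_inner_right.2 huv
  rw [← sphInt_const (finrank_perp hd hu) (by omega) B] at he
  exact sphInt_eq_imp
    (F := ((Submodule.span ℝ {u})ᗮ : Submodule ℝ (EuclideanSpace ℝ (Fin d))))
    (φ := fun w => φ (w : EuclideanSpace ℝ (Fin d))) (ψ := fun _ => B)
    (by fun_prop) (by fun_prop) (fun w hw => h _ (by simpa using hw)) he ⟨v, hmem⟩ (by simpa using hv)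

lemma T_add_inner {φ : EuclideanSpace ℝ (Fin d) → ℝ} (hφ : Continuous φ)
    (x u : EuclideanSpace ℝ (Fin d)) : T (fun w => φ w + ⟪x, w⟫) u = T φ u := by
  unfold T
  rw [sphInt_add (by fun_prop) (by fun_prop)]
  have : sphInt (F := ((Submodule.span ℝ {u})ᗮ : Submodule ℝ (EuclideanSpace ℝ (Fin d))))
      (fun w => ⟪x, (w : EuclideanSpace ℝ (Fin d))⟫) = 0 := by
    have h := integral_inner
      (F := ((Submodule.span ℝ {u})ᗮ : Submodule ℝ (EuclideanSpace ℝ (Fin d))))
      ((Submodule.span ℝ {u})ᗮ.orthogonalProjectionOnto x)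
    unfold sphInt
    rw [← h]
    congr 1
    ext w
    rw [Submodule.inner_orthogonalProjectionOnto_eq_of_mem_right]
  rw [this, add_zero]

lemma V1_shadow (K : ConvexBody (EuclideanSpace ℝ (Fin d))) (hd : 3 ≤ d)
    {u : EuclideanSpace ℝ (Fin d)} (hu : ‖u‖ = 1) :
    V1 (shadow (K : Set (EuclideanSpace ℝ (Fin d))) (Submodule.span ℝ {u})ᗮ) =
      T (supp (K : Set (EuclideanSpace ℝ (Fin d)))) u / kappa (d - 2) := by
  unfold V1
  rw [finrank_perp hd hu]
  have h2 : d - 1 - 1 = d - 2 := by omega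
  rw [h2]
  congr 1
  unfold T sphInt
  congr 1
  ext w
  unfold supp shadow
  rw [image_image]
  congr 1
  apply image_congr
  intro x hx
  rw [Submodule.inner_orthogonalProjectionOnto_eq_of_mem_right]

lemma V1_shadow_neg (K : ConvexBody (EuclideanSpace ℝ (Fin d))) (u : EuclideanSpace ℝ (Fin d)) :
    V1 (shadow (K : Set (EuclideanSpace ℝ (Fin d))) (Submodule.span ℝ {-u})ᗮ) =
    V1 (shadow (K : Set (EuclideanSpace ℝ (Fin d))) (Submodule.span ℝ {u})ᗮ) := by
  have : Submodule.span ℝ {-u} = Submodule.span ℝ {u} := by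
    rw [← Set.neg_singleton, Submodule.span_neg]
  rw [this]

end T

end Pool.Agent.Helper82.Proj1
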