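import Mathlib
import Pool.Agent.Helper82.Proj1.Main

set_option autoImplicit false

open MeasureTheory Metric Set
open scoped RealInnerProductSpace Pointwise

namespace Pool.Agent.Helper82.Proj1

variable {d : ℕ}

/-- In dimension at least three, two vectors have a common unit normal vector. -/
lemma exists_common_normal (hd : 3 ≤ d) (u w : EuclideanSpace ℝ (Fin d)) :
    ∃ v : EuclideanSpace ℝ (Fin d), ‖v‖ = 1 ∧ ⟪u, v⟫ = 0 ∧ ⟪v, w⟫ = 0 := by
  set S : Submodule ℝ (EuclideanSpace ℝ (Fin d)) := Submodule.span ℝ {u, w} with hS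
  have h1 := Submodule.finrank_add_finrank_orthogonal (𝕜 := ℝ) S
  have h2 : Module.finrank ℝ S ≤ 2 := by
    have := finrank_span_le_card (R := ℝ) ({u, w} : Set (EuclideanSpace ℝ (Fin d)))
    refine this.trans ?_
    have hc : ({u, w} : Set (EuclideanSpace ℝ (Fin d))).toFinset.card ≤ 2 := by
      simp only [Set.toFinset_insert, Set.toFinset_singleton]
      exact Finset.card_le_two
    exact hc
  simp only [finrank_euclideanSpace, Fintype.card_fin] at h1
  have h3 : 0 < Module.finrank ℝ Sᗮ := by omega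
  have : Nontrivial Sᗮ := Module.nontrivial_of_finrank_pos h3
  obtain ⟨v, hv⟩ := exists_ne (0 : Sᗮ)
  have hv0 : (v : EuclideanSpace ℝ (Fin d)) ≠ 0 := by simpa using hv
  have hn : ‖(v : EuclideanSpace ℝ (Fin d))‖ ≠ 0 := norm_ne_zero_iff.2 hv0
  have hmem := v.2
  rw [Submodule.mem_orthogonal] at hmem
  have hu : ⟪u, (v : EuclideanSpace ℝ (Fin d))⟫ = 0 := hmem u (Submodule.subset_span (by simp))
  have hw : ⟪w, (v : EuclideanSpace ℝ (Fin d))⟫ = 0 := hmem w (Submodule.subset_span (by simp))
  refine ⟨‖(v : EuclideanSpace ℝ (Fin d))‖⁻¹ • (v : EuclideanSpace ℝ (Fin d)), ?_, ?_, ?_⟩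
  · rw [norm_smul, norm_inv, norm_norm, inv_mul_cancel₀ hn]
  · rw [real_inner_smul_right, hu, mul_zero]
  · rw [real_inner_smul_left, real_inner_comm, hw, mul_zero]

lemma supp_width_pos {K : Set (EuclideanSpace ℝ (Fin d))} (hK : IsCompact K)
    (hint : (interior K).Nonempty) {u : EuclideanSpace ℝ (Fin d)} (hu : ‖u‖ = 1) :
    0 < supp K u + supp K (-u) := by
  obtain ⟨x, hx⟩ := hint
  obtain ⟨ε, hε, hball⟩ := Metric.isOpen_iff.1 isOpen_interior x hx
  have h1 : x + (ε / 2) • u ∈ K := by
    apply interior_subset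
    apply hball
    rw [mem_ball, dist_eq_norm, add_sub_cancel_left, norm_smul, hu, Real.norm_eq_abs,
      abs_of_pos (by linarith)]
    linarith
  have h2 := le_supp hK h1 u
  have h3 := le_supp hK (interior_subset hx) (-u)
  rw [inner_add_left, real_inner_smul_left, real_inner_self_eq_norm_sq, hu] at h2
  rw [inner_neg_right] at h3
  linarith

/-- The core statement. -/
theorem ball_of_chain (hd : 3 ≤ d) (m : ℕ) (hm : 1 ≤ m)
    (C : ℕ → ConvexBody (EuclideanSpace ℝ (Fin d)))
    (hint : (interior (C 0 : Set (EuclideanSpace ℝ (Fin d)))).Nonempty)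
    (hC : ∀ i < m, IsFirstProjectionBody (C i) (C (i + 1)))
    (hH : Homothetic (C m) (C 0)) :
    ∃ (y : EuclideanSpace ℝ (Fin d)) (r : ℝ), 0 < r ∧
      (C 0 : Set (EuclideanSpace ℝ (Fin d))) = closedBall y r := by
  obtain ⟨c, hc, x, hx⟩ := hH
  set h : ℕ → EuclideanSpace ℝ (Fin d) → ℝ := fun i => supp (C i : Set _) with hh
  have hcont : ∀ i, Continuous (h i) := fun i => supp_continuous (C i).isCompact (C i).nonempty
  have hκ := kappa_pos (d - 2)
  have hmass := mass_pos (n := d - 1) (by omega)
  set lam : ℝ := mass (d - 1) / kappa (d - 2) with hlam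
  have hlam0 : 0 < lam := by positivity
  have hstep : ∀ i < m, ∀ u, ‖u‖ = 1 → h (i + 1) u = T (h i) u / kappa (d - 2) := by
    intro i hi u hu
    have := hC i hi u hu
    rw [V1_shadow _ hd hu] at this
    exact this
  have heven : ∀ u, ‖u‖ = 1 → h m (-u) = h m u := by
    intro u hu
    obtain ⟨k, rfl⟩ : ∃ k, m = k + 1 := ⟨m - 1, by omega⟩
    have h1 := hC k (by omega) (-u) (by rw [norm_neg, hu])
    have h2 := hC k (by omega) u hu
    rw [V1_shadow_neg] at h1
    exact h1.trans h2.symm
  have hm0 : ∀ u, h m u = c * h 0 u + ⟪x, u⟫ := by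
    intro u
    have := supp_homothety (C 0).isCompact (C 0).nonempty hc x u
    rw [← hx] at this
    exact this
  -- the centred support function
  set f : EuclideanSpace ℝ (Fin d) → ℝ := fun u => h 0 u + ⟪c⁻¹ • x, u⟫ with hf
  have hfc : Continuous f := by
    have := hcont 0
    fun_prop
  have hfm : ∀ u, h m u = c * f u := by
    intro u
    rw [hm0 u, hf]
    simp only [real_inner_smul_left]
    field_simp
  have hfpos : ∀ u, ‖u‖ = 1 → 0 < f u := by
    intro u hu
    have h1 := supp_width_pos (C 0).isCompact hint hu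
    have h2 : f u = f (-u) := by
      have e1 := heven u hu
      rw [hfm, hfm] at e1
      exact (mul_left_cancel₀ hc.ne' e1).symm
    have h3 : f u + f (-u) = h 0 u + h 0 (-u) := by
      simp only [hf, inner_neg_right]
      ring
    have h4 : 0 < h 0 u + h 0 (-u) := h1
    linarith
  set g : ℕ → EuclideanSpace ℝ (Fin d) → ℝ := fun i => if i = 0 then f else h i with hg
  have hgc : ∀ i, Continuous (g i) := by
    intro i
    by_cases hi : i = 0
    · simp only [hg, hi, if_true]; exact hfc
    · simp only [hg, hi, if_false]; exact hcont i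
  have hgstep : ∀ i < m, ∀ u, ‖u‖ = 1 → g (i + 1) u = T (g i) u / kappa (d - 2) := by
    intro i hi u hu
    have h1 := hstep i hi u hu
    by_cases hi0 : i = 0
    · subst hi0
      simp only [hg, if_true, if_false, zero_add, one_ne_zero]
      rw [hf, T_add_inner (hcont 0)]
      exact h1
    · simp only [hg, Nat.succ_ne_zero, if_false, hi0]
      exact h1
  have hgm : ∀ u, g m u = c * f u := by
    intro u
    have : m ≠ 0 := by omega
    simp only [hg, this, if_false]
    exact hfm u
  have hg0 : g 0 = f := by simp [hg]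
  -- maximum and minimum on the sphere
  have hdpos : 0 < d := by omega
  have hsne : (sphere (0 : EuclideanSpace ℝ (Fin d)) 1).Nonempty := by
    refine ⟨EuclideanSpace.single ⟨0, hdpos⟩ (1 : ℝ), ?_⟩
    simp
  obtain ⟨u0, hu0, hmax⟩ := (isCompact_sphere (0 : EuclideanSpace ℝ (Fin d)) 1).exists_isMaxOn
    hsne hfc.continuousOn
  obtain ⟨u1, hu1, hmin⟩ := (isCompact_sphere (0 : EuclideanSpace ℝ (Fin d)) 1).exists_isMinOn
    hsne hfc.continuousOn
  have hu0' : ‖u0‖ = 1 := by simpa using hu0
  have hu1' : ‖u1‖ = 1 := by simpa using hu1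
  have hM : ∀ u, ‖u‖ = 1 → f u ≤ f u0 := fun u hu => hmax (by simpa using hu)
  have hmu : ∀ u, ‖u‖ = 1 → f u1 ≤ f u := fun u hu => hmin (by simpa using hu)
  set M := f u0 with hMdef
  have hM0 : 0 < M := hfpos u0 hu0'
  have hmu0 : 0 < f u1 := hfpos u1 hu1'
  have hup : ∀ i ≤ m, ∀ u, ‖u‖ = 1 → g i u ≤ lam ^ i * M := by
    intro i
    induction i with
    | zero => intro _ u hu; rw [hg0]; simpa using hM u hu
    | succ i ih =>
      intro hi u hu
      rw [hgstep i (by omega) u hu, div_le_iff₀ hκ]
      have := T_le hd (hgc i) (ih (by omega)) hu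
      refine this.trans (le_of_eq ?_)
      rw [pow_succ, hlam]
      field_simp
  have hlow : ∀ i ≤ m, ∀ u, ‖u‖ = 1 → lam ^ i * f u1 ≤ g i u := by
    intro i
    induction i with
    | zero => intro _ u hu; rw [hg0]; simpa using hmu u hu
    | succ i ih =>
      intro hi u hu
      rw [hgstep i (by omega) u hu, le_div_iff₀ hκ]
      have := le_T hd (hgc i) (ih (by omega)) hu
      refine (le_of_eq ?_).trans this
      rw [pow_succ, hlam]
      field_simp
  have hc1 : c ≤ lam ^ m := by
    have := hup m le_rfl u0 hu0'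
    rw [hgm] at this
    exact le_of_mul_le_mul_right this hM0
  have hc2 : lam ^ m ≤ c := by
    have := hlow m le_rfl u1 hu1'
    rw [hgm] at this
    exact le_of_mul_le_mul_right this hmu0
  have hceq : c = lam ^ m := le_antisymm hc1 hc2
  -- propagation of the maximum
  have hprop : ∀ i < m, ∀ u, ‖u‖ = 1 → g (i + 1) u = lam ^ (i + 1) * M →
      ∀ v, ‖v‖ = 1 → ⟪u, v⟫ = 0 → g i v = lam ^ i * M := by
    intro i hi u hu he v hv huv
    apply T_max hd (hgc i) (hup i hi.le) hu _ v hv huv
    rw [hgstep i hi u hu, div_eq_iff hκ.ne'] at he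
    rw [he, pow_succ, hlam]
    field_simp
  have hfwd : ∀ i < m, (∀ u, ‖u‖ = 1 → g i u = lam ^ i * M) →
      ∀ u, ‖u‖ = 1 → g (i + 1) u = lam ^ (i + 1) * M := by
    intro i hi he u hu
    rw [hgstep i hi u hu, T_const hd he hu, pow_succ, hlam]
    field_simp
  have hfconst : ∀ u, ‖u‖ = 1 → f u = M := by
    have htop : g m u0 = lam ^ m * M := by rw [hgm, hceq]
    rcases Nat.lt_or_ge m 2 with hm2 | hm2
    · have hm1 : m = 1 := by omega
      subst hm1
      have e1 : ∀ v, ‖v‖ = 1 → ⟪u0, v⟫ = 0 → f v = M := by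
        intro v hv huv
        have := hprop 0 (by omega) u0 hu0' (by simpa using htop) v hv huv
        rw [hg0] at this
        simpa using this
      intro w hw
      obtain ⟨v, hv, huv, hvw⟩ := exists_common_normal hd u0 w
      have e2 : g (0 + 1) v = lam ^ (0 + 1) * M := by
        have := hgm v
        rw [e1 v hv huv, hceq] at this
        simpa using this
      have := hprop 0 (by omega) v hv e2 w hw hvw
      rw [hg0] at this
      simpa using this
    · obtain ⟨k, rfl⟩ : ∃ k, m = k + 2 := ⟨m - 2, by omega⟩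
      have e1 := hprop (k + 1) (by omega) u0 hu0' htop
      have e2 : ∀ w, ‖w‖ = 1 → g k w = lam ^ k * M := by
        intro w hw
        obtain ⟨v, hv, huv, hvw⟩ := exists_common_normal hd u0 w
        exact hprop k (by omega) v hv (e1 v hv huv) w hw hvw
      have e3 := hfwd k (by omega) e2
      have e4 := hfwd (k + 1) (by omega) e3
      intro u hu
      have := e4 u hu
      rw [hgm] at this
      rw [hceq] at this
      exact mul_left_cancel₀ (pow_pos hlam0 _).ne' this
  refine ⟨-(c⁻¹ • x), M, hM0, ?_⟩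
  apply eq_closedBall (C 0).isCompact (C 0).convex (C 0).nonempty _ _ hM0.le
  intro u hu
  have := hfconst u hu
  simp only [hf] at this
  rw [inner_neg_left]
  have h5 : supp (C 0 : Set (EuclideanSpace ℝ (Fin d))) u = h 0 u := rfl
  rw [h5]
  linarith

/-- The ball of centre `y` and radius `r` as a convex body. -/
noncomputable def ballBody (y : EuclideanSpace ℝ (Fin d)) (r : ℝ) (hr : 0 ≤ r) :
    ConvexBody (EuclideanSpace ℝ (Fin d)) where
  carrier := closedBall y r
  convex' := convex_closedBall y r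
  isCompact' := isCompact_closedBall y r
  nonempty' := ⟨y, mem_closedBall_self hr⟩

lemma coe_ballBody (y : EuclideanSpace ℝ (Fin d)) (r : ℝ) (hr : 0 ≤ r) :
    (ballBody y r hr : Set (EuclideanSpace ℝ (Fin d))) = closedBall y r := rfl

lemma isFirst_ball (hd : 3 ≤ d) (K : ConvexBody (EuclideanSpace ℝ (Fin d)))
    (y : EuclideanSpace ℝ (Fin d)) (r : ℝ) (hr : 0 ≤ r)
    (hK : (K : Set (EuclideanSpace ℝ (Fin d))) = closedBall y r)
    (hr' : 0 ≤ mass (d - 1) / kappa (d - 2) * r) :
    IsFirstProjectionBody K (ballBody 0 (mass (d - 1) / kappa (d - 2) * r) hr') := by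
  intro u hu
  rw [coe_ballBody, supp_closedBall _ hr' hu, V1_shadow K hd hu, inner_zero_left, zero_add, hK]
  have : T (supp (closedBall y r)) u = mass (d - 1) * r := by
    rw [T_congr (ψ := fun w => r + ⟪y, w⟫) (fun w hw => by
      rw [supp_closedBall y hr hw]; ring) u]
    rw [T_add_inner continuous_const]
    exact T_const hd (fun _ _ => rfl) hu
  rw [this]
  field_simp

/-- Balls are homothetic to all their iterated first projection bodies. -/
theorem chain_of_ball (hd : 3 ≤ d) (m : ℕ) (K : ConvexBody (EuclideanSpace ℝ (Fin d)))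
    (y : EuclideanSpace ℝ (Fin d)) (r : ℝ) (hr : 0 < r)
    (hK : (K : Set (EuclideanSpace ℝ (Fin d))) = closedBall y r) :
    ∃ C : ℕ → ConvexBody (EuclideanSpace ℝ (Fin d)), C 0 = K ∧
      (∀ i < m, IsFirstProjectionBody (C i) (C (i + 1))) ∧ Homothetic (C m) (C 0) := by
  have hκ := kappa_pos (d - 2)
  have hmass := mass_pos (n := d - 1) (by omega)
  set lam : ℝ := mass (d - 1) / kappa (d - 2) with hlam
  have hlam0 : 0 < lam := by positivity
  set C : ℕ → ConvexBody (EuclideanSpace ℝ (Fin d)) := fun i =>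
    if i = 0 then K else ballBody 0 (lam ^ i * r) (by positivity) with hC
  have hCi : ∀ i, ∃ z, (C i : Set (EuclideanSpace ℝ (Fin d))) = closedBall z (lam ^ i * r) := by
    intro i
    by_cases hi : i = 0
    · refine ⟨y, ?_⟩
      simp only [hC, hi, if_true, pow_zero, one_mul]
      exact hK
    · refine ⟨0, ?_⟩
      simp only [hC, hi, if_false]
      rfl
  refine ⟨C, by simp [hC], ?_, ?_⟩
  · intro i hi
    obtain ⟨z, hz⟩ := hCi i
    have h1 := isFirst_ball hd (C i) z (lam ^ i * r) (by positivity) hz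
      (by rw [← hlam]; positivity)
    have h2 : C (i + 1) = ballBody 0 (mass (d - 1) / kappa (d - 2) * (lam ^ i * r))
        (by rw [← hlam]; positivity) := by
      apply SetLike.coe_injective
      rw [coe_ballBody]
      simp only [hC, Nat.succ_ne_zero, if_false]
      rw [coe_ballBody]
      congr 1
      rw [pow_succ, ← hlam]
      ring
    rw [h2]
    exact h1
  · obtain ⟨z, hz⟩ := hCi m
    refine ⟨lam ^ m, by positivity, z - lam ^ m • y, ?_⟩
    have h0 : (C 0 : Set (EuclideanSpace ℝ (Fin d))) = closedBall y r := by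
      simp only [hC, if_true]; exact hK
    rw [hz, h0]
    have hl : (0 : ℝ) < lam ^ m := by positivity
    ext w
    simp only [Set.mem_image, mem_closedBall, dist_eq_norm]
    constructor
    · intro hw
      refine ⟨(lam ^ m)⁻¹ • (w - z) + y, ?_, ?_⟩
      · rw [add_sub_cancel_right, norm_smul, norm_inv, Real.norm_eq_abs, abs_of_pos hl]
        rw [inv_mul_le_iff₀ hl]
        exact hw
      · rw [smul_add, smul_smul, mul_inv_cancel₀ hl.ne', one_smul]
        abel
    · rintro ⟨v, hv, rfl⟩
      have : lam ^ m • v + (z - lam ^ m • y) - z = lam ^ m • (v - y) := by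
        rw [smul_sub]; abel
      rw [this, norm_smul, Real.norm_eq_abs, abs_of_pos hl]
      exact mul_le_mul_of_nonneg_left hv hl.le

end Pool.Agent.Helper82.Proj1
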