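import Mathlib
import Pool.Agent.Helper82.Proj1.Defs
import Pool.Agent.Helper82.Proj1.Final

set_option autoImplicit false

open Pool.Agent.Helper82.Proj1

/-- For `d ≥ 3` and `m ≥ 1`, a convex body `K` of `ℝ^d` with nonempty interior is homothetic to
its `m`-th iterated first projection body `Π_1^m K` (in particular, for `m = 2`, to `Π_1^2 K`)
if and only if `K` is a Euclidean ball. -/
theorem Pool.Agent.Helper82.Proj1.firstProjection_result
    (d : ℕ) (hd : 3 ≤ d) (m : ℕ) (hm : 1 ≤ m)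
    (K : ConvexBody (EuclideanSpace ℝ (Fin d)))
    (hK : (interior (K : Set (EuclideanSpace ℝ (Fin d)))).Nonempty) :
    (∃ C : ℕ → ConvexBody (EuclideanSpace ℝ (Fin d)), C 0 = K ∧
      (∀ i < m, IsFirstProjectionBody (C i) (C (i + 1))) ∧ Homothetic (C m) K) ↔
    ∃ (y : EuclideanSpace ℝ (Fin d)) (r : ℝ), 0 < r ∧
      (K : Set (EuclideanSpace ℝ (Fin d))) = Metric.closedBall y r := by
  constructor
  · rintro ⟨C, h0, hC, hH⟩
    subst h0
    exact ball_of_chain hd m hm C hK hC hH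
  · rintro ⟨y, r, hr, hKr⟩
    obtain ⟨C, h0, hC, hH⟩ := chain_of_ball hd m K y r hr hKr
    refine ⟨C, h0, hC, ?_⟩
    rw [h0] at hH
    exact hH
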